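import Pool.Agent.V1162.BT.Main

open Finset

namespace Pool.Agent.V1162.BT

/-- The counterexample on `Fin n`. -/
theorem main_fin (C : ℕ) : ∃ (n : ℕ) (F : Finset (Finset (Fin n))),
    (∀ A ∈ F, (1 / 8 : ℝ) * Real.sqrt (n : ℝ) < ((A.card : ℕ) : ℝ)) ∧
      (∀ A ∈ F, ∀ B ∈ F, A ≠ B → (A ∩ B).card ≤ 1) ∧
      ¬ ∃ S : Finset (Fin n), ∀ A ∈ F, 1 ≤ (A ∩ S).card ∧ (A ∩ S).card ≤ C := by
  classical
  obtain ⟨q, hq, F, h1, h2, h3⟩ := main C
  have hcard : Fintype.card (ZMod q × ZMod q) = q * q := by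
    rw [Fintype.card_prod, ZMod.card]
  let e : ZMod q × ZMod q ≃ Fin (q * q) := Fintype.equivFinOfCardEq hcard
  have hinj : Function.Injective e := e.injective
  refine ⟨q * q, F.image (fun A => A.image e), ?_, ?_, ?_⟩
  · intro A hA
    obtain ⟨B, hB, rfl⟩ := mem_image.mp hA
    rw [card_image_of_injective _ hinj]
    have h4 := h1 B hB
    have h5 : (q : ℝ) ≤ 4 * (B.card : ℝ) := by exact_mod_cast h4
    have h6 : (0 : ℝ) < q := by exact_mod_cast hq.out.pos
    have h7 : Real.sqrt ((q * q : ℕ) : ℝ) = q := by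
      push_cast
      exact Real.sqrt_mul_self h6.le
    rw [h7]
    linarith
  · intro A hA B hB hne
    obtain ⟨A', hA', rfl⟩ := mem_image.mp hA
    obtain ⟨B', hB', rfl⟩ := mem_image.mp hB
    rw [← image_inter _ _ hinj, card_image_of_injective _ hinj]
    exact h2 A' hA' B' hB' (fun h => hne (by rw [h]))
  · rintro ⟨S, hS⟩
    apply h3
    refine ⟨S.image e.symm, fun A hA => ?_⟩
    have h4 := hS (A.image e) (mem_image_of_mem _ hA)
    have h5 : A.image e ∩ S = (A ∩ S.image e.symm).image e := by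
      rw [image_inter _ _ hinj, image_image]
      congr 1
      simp
    rw [h5, card_image_of_injective _ hinj] at h4
    exact h4

end Pool.Agent.V1162.BT
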