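import Mathlib

open Finset Filter Topology

namespace Pool.Agent.V1162.BT

variable {q : ℕ} [Fact q.Prime]

/-- The large subsets of `ZMod q`. -/
def bigSets (q : ℕ) [Fact q.Prime] : Finset (Finset (ZMod q)) :=
  univ.filter (fun W => q ≤ 4 * W.card)

/-- The small subsets of `ZMod q`. -/
def smallSets (q : ℕ) [Fact q.Prime] (C : ℕ) : Finset (Finset (ZMod q)) :=
  univ.filter (fun W => W.card ≤ C)

/-- The `x` for which the line `l` hits the set described by `σ` over `x`. -/
def trace (σ : ZMod q → Finset (ZMod q)) (l : ZMod q × ZMod q) : Finset (ZMod q) :=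
  univ.filter (fun x => l.1 * x + l.2 ∈ σ x)

lemma card_bigSets_le : (bigSets q).card ≤ 2 ^ q := by
  refine (card_filter_le _ _).trans ?_
  rw [card_univ, Fintype.card_finset, ZMod.card]

lemma count_avoid (T : Finset (ZMod q)) (hT : 2 * T.card ≤ q) :
    2 ^ (q - T.card) ≤ 2 * ((bigSets q).filter (fun W => W ∩ T = ∅)).card := by
  classical
  set R := Tᶜ with hR
  have hRc : R.card = q - T.card := by rw [hR, card_compl, ZMod.card]
  have h1 : (R.powerset.filter (fun W => q ≤ 4 * W.card)).card +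
      (R.powerset.filter (fun W => ¬ q ≤ 4 * W.card)).card = 2 ^ (q - T.card) := by
    rw [card_filter_add_card_filter_not, card_powerset, hRc]
  have h2 : (R.powerset.filter (fun W => ¬ q ≤ 4 * W.card)).card ≤
      (R.powerset.filter (fun W => q ≤ 4 * W.card)).card := by
    apply card_le_card_of_injOn (fun W => R \ W)
    · intro W hW
      rw [mem_coe, mem_filter, mem_powerset] at hW
      simp only [mem_coe, mem_filter, mem_powerset]
      refine ⟨sdiff_subset, ?_⟩
      rw [card_sdiff_of_subset hW.1, hRc]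
      omega
    · intro W hW W' hW' h
      rw [mem_coe, mem_filter, mem_powerset] at hW hW'
      have h' : R \ W = R \ W' := h
      rw [← Finset.sdiff_sdiff_eq_self hW.1, h', Finset.sdiff_sdiff_eq_self hW'.1]
  have h3 : (R.powerset.filter (fun W => q ≤ 4 * W.card)).card ≤
      ((bigSets q).filter (fun W => W ∩ T = ∅)).card := by
    apply card_le_card
    intro W hW
    rw [mem_filter, mem_powerset] at hW
    rw [mem_filter, bigSets, mem_filter]
    refine ⟨⟨mem_univ _, hW.2⟩, ?_⟩
    rw [← disjoint_iff_inter_eq_empty, Finset.disjoint_left]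
    intro x hx hxT
    have := hW.1 hx
    rw [hR, mem_compl] at this
    exact this hxT
  omega

/-- The number of large sets meeting a small set `T`. -/
lemma count_meet {C : ℕ} (hC : 4 * C ≤ q) (T : Finset (ZMod q)) (hT : T.card ≤ 2 * C) :
    (((bigSets q).filter (fun W => (W ∩ T).Nonempty)).card : ℝ) ≤
      (bigSets q).card * (1 - 1 / 2 ^ (2 * C + 1)) := by
  classical
  have h1 := count_avoid T (by omega)
  have h2 : ((bigSets q).filter (fun W => (W ∩ T).Nonempty)).card +
      ((bigSets q).filter (fun W => ¬ (W ∩ T).Nonempty)).card = (bigSets q).card :=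
    card_filter_add_card_filter_not _
  have h3 : (bigSets q).filter (fun W => ¬ (W ∩ T).Nonempty) =
      (bigSets q).filter (fun W => W ∩ T = ∅) := by
    apply filter_congr
    intro W _
    rw [not_nonempty_iff_eq_empty]
  rw [h3] at h2
  have h4 := card_bigSets_le (q := q)
  have h5 : 2 ^ q ≤ 2 ^ (2 * C + 1) * ((bigSets q).filter (fun W => W ∩ T = ∅)).card := by
    have h6 : 2 ^ q = 2 ^ T.card * 2 ^ (q - T.card) := by
      rw [← pow_add]
      congr 1
      omega
    calc 2 ^ q = 2 ^ T.card * 2 ^ (q - T.card) := h6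
      _ ≤ 2 ^ (2 * C) * (2 * ((bigSets q).filter (fun W => W ∩ T = ∅)).card) :=
          Nat.mul_le_mul (Nat.pow_le_pow_right (by norm_num) hT) h1
      _ = _ := by ring
  have h7 : (bigSets q).card ≤ 2 ^ (2 * C + 1) * ((bigSets q).filter (fun W => W ∩ T = ∅)).card :=
    h4.trans h5
  have h8 : ((bigSets q).card : ℝ) ≤
      2 ^ (2 * C + 1) * (((bigSets q).filter (fun W => W ∩ T = ∅)).card : ℝ) := by
    exact_mod_cast h7
  have h9 : (((bigSets q).filter (fun W => (W ∩ T).Nonempty)).card : ℝ) =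
      (bigSets q).card - (((bigSets q).filter (fun W => W ∩ T = ∅)).card : ℝ) := by
    rw [← h2]
    push_cast
    ring
  rw [h9]
  have hD : (0 : ℝ) < 2 ^ (2 * C + 1) := by positivity
  have h10 : ((bigSets q).card : ℝ) / 2 ^ (2 * C + 1) ≤
      (((bigSets q).filter (fun W => W ∩ T = ∅)).card : ℝ) := by
    rw [div_le_iff₀ hD]
    linarith
  have h11 : ((bigSets q).card : ℝ) * (1 - 1 / 2 ^ (2 * C + 1)) =
      (bigSets q).card - (bigSets q).card / 2 ^ (2 * C + 1) := by ring
  rw [h11]
  linarith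

lemma sum_trace (σ : ZMod q → Finset (ZMod q)) :
    ∑ l : ZMod q × ZMod q, (trace σ l).card = ∑ x : ZMod q, q * (σ x).card := by
  classical
  have h1 : ∀ l : ZMod q × ZMod q, (trace σ l).card =
      ∑ x : ZMod q, if l.1 * x + l.2 ∈ σ x then 1 else 0 := by
    intro l
    unfold trace
    rw [card_filter]
  simp only [h1]
  rw [sum_comm]
  apply sum_congr rfl
  intro x _
  rw [Fintype.sum_prod_type]
  simp only
  have h2 : ∀ a : ZMod q, ∑ b : ZMod q, (if a * x + b ∈ σ x then 1 else 0) = (σ x).card := by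
    intro a
    rw [← Equiv.sum_comp (Equiv.addLeft (-(a * x)))
      (fun b => if a * x + b ∈ σ x then 1 else 0)]
    simp
  simp only [h2, sum_const, card_univ, ZMod.card, smul_eq_mul]

/-- At least half of the lines meet a set with at most `C` points on each vertical line in at
most `2 C` points. -/
lemma good_lines {C : ℕ} (σ : ZMod q → Finset (ZMod q)) (hσ : ∀ x, (σ x).card ≤ C) :
    q * q ≤ 2 * ((univ : Finset (ZMod q × ZMod q)).filter
      (fun l => (trace σ l).card ≤ 2 * C)).card := by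
  classical
  have h1 := sum_trace σ
  have h2 : ∑ x : ZMod q, q * (σ x).card ≤ q * (q * C) := by
    calc ∑ x : ZMod q, q * (σ x).card ≤ ∑ _x : ZMod q, q * C :=
          sum_le_sum (fun x _ => Nat.mul_le_mul_left q (hσ x))
      _ = q * (q * C) := by rw [sum_const, card_univ, ZMod.card, smul_eq_mul]
  have h3 : ((univ : Finset (ZMod q × ZMod q)).filter
      (fun l => (trace σ l).card ≤ 2 * C)).card + ((univ : Finset (ZMod q × ZMod q)).filter
      (fun l => ¬ (trace σ l).card ≤ 2 * C)).card = q * q := by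
    rw [card_filter_add_card_filter_not, card_univ, Fintype.card_prod, ZMod.card]
  have h4 : (2 * C + 1) * ((univ : Finset (ZMod q × ZMod q)).filter
      (fun l => ¬ (trace σ l).card ≤ 2 * C)).card ≤ ∑ l : ZMod q × ZMod q, (trace σ l).card := by
    calc (2 * C + 1) * ((univ : Finset (ZMod q × ZMod q)).filter
          (fun l => ¬ (trace σ l).card ≤ 2 * C)).card
        = ∑ _l ∈ (univ : Finset (ZMod q × ZMod q)).filter
          (fun l => ¬ (trace σ l).card ≤ 2 * C), (2 * C + 1) := by
            rw [sum_const, smul_eq_mul, mul_comm]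
      _ ≤ ∑ l ∈ (univ : Finset (ZMod q × ZMod q)).filter
          (fun l => ¬ (trace σ l).card ≤ 2 * C), (trace σ l).card := by
            apply sum_le_sum
            intro l hl
            have := (mem_filter.mp hl).2
            omega
      _ ≤ ∑ l : ZMod q × ZMod q, (trace σ l).card :=
            sum_le_sum_of_subset (filter_subset _ _)
  set G := ((univ : Finset (ZMod q × ZMod q)).filter
      (fun l => (trace σ l).card ≤ 2 * C)).card
  set Bd := ((univ : Finset (ZMod q × ZMod q)).filter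
      (fun l => ¬ (trace σ l).card ≤ 2 * C)).card
  have h5 : (2 * C + 1) * Bd ≤ q * (q * C) := h4.trans (h1.le.trans h2)
  by_contra hcon
  push Not at hcon
  have h6 : q * q < 2 * Bd := by omega
  have h7 : (2 * C + 1) * (q * q) ≤ (2 * C + 1) * (2 * Bd) := Nat.mul_le_mul_left _ h6.le
  have h8 : (2 * C + 1) * (2 * Bd) ≤ 2 * (q * (q * C)) := by
    calc (2 * C + 1) * (2 * Bd) = 2 * ((2 * C + 1) * Bd) := by ring
      _ ≤ 2 * (q * (q * C)) := Nat.mul_le_mul_left 2 h5
  have h9 : (2 * C + 1) * (q * q) = 2 * (q * (q * C)) + q * q := by ring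
  have hq : 0 < q * q := by
    have := (Fact.out : q.Prime).pos
    positivity
  omega

lemma card_smallSets_le (C : ℕ) : (smallSets q C).card ≤ (q + 1) ^ C := by
  classical
  have h1 : smallSets q C ⊆ (univ : Finset (Fin C → Option (ZMod q))).image
      (fun g => (univ.image g).eraseNone) := by
    intro T hT
    rw [smallSets, mem_filter] at hT
    rw [mem_image]
    refine ⟨fun i => if h : i.val < T.card then some (T.equivFin.symm ⟨i.val, h⟩ : T).1 else none,
      mem_univ _, ?_⟩
    ext x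
    rw [mem_eraseNone, mem_image]
    constructor
    · rintro ⟨i, _, hi⟩
      split_ifs at hi with h
      rw [Option.some.injEq] at hi
      rw [← hi]
      exact (T.equivFin.symm ⟨i.val, h⟩).2
    · intro hx
      have hlt : (T.equivFin ⟨x, hx⟩).val < T.card := (T.equivFin ⟨x, hx⟩).isLt
      refine ⟨⟨(T.equivFin ⟨x, hx⟩).val, hlt.trans_le hT.2⟩, mem_univ _, ?_⟩
      simp only
      rw [dif_pos hlt]
      simp
  refine (card_le_card h1).trans (card_image_le.trans ?_)
  rw [card_univ, Fintype.card_fun, Fintype.card_option, ZMod.card, Fintype.card_fin]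

/-- The union bound. -/
lemma exists_good (C : ℕ) (r : ℝ) (hr0 : 0 ≤ r) (hr1 : r < 1)
    (hr : r ^ 2 = 1 - 1 / 2 ^ (2 * C + 1)) (hC : 4 * C ≤ q)
    (hsmall : ((q : ℝ) + 1) ^ C * r ^ q < 1) :
    ∃ ω : ZMod q × ZMod q → Finset (ZMod q), (∀ l, q ≤ 4 * (ω l).card) ∧
      ∀ σ : ZMod q → Finset (ZMod q), (∀ x, (σ x).card ≤ C) → ∃ l, ω l ∩ trace σ l = ∅ := by
  classical
  by_contra hcon
  push Not at hcon
  let Om : Finset (ZMod q × ZMod q → Finset (ZMod q)) := Fintype.piFinset (fun _ => bigSets q)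
  let Sg : Finset (ZMod q → Finset (ZMod q)) := Fintype.piFinset (fun _ => smallSets q C)
  let Wk : (ZMod q → Finset (ZMod q)) → Finset (ZMod q × ZMod q → Finset (ZMod q)) := fun σ =>
    Fintype.piFinset (fun l => (bigSets q).filter (fun W => (W ∩ trace σ l).Nonempty))
  have hcover : Om ⊆ Sg.biUnion Wk := by
    intro ω hω
    rw [Fintype.mem_piFinset] at hω
    obtain ⟨σ, hσ, hall⟩ := hcon ω (fun l => (mem_filter.mp (hω l)).2)
    rw [mem_biUnion]
    refine ⟨σ, ?_, ?_⟩
    · rw [Fintype.mem_piFinset]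
      intro x
      rw [smallSets, mem_filter]
      exact ⟨mem_univ _, hσ x⟩
    · rw [Fintype.mem_piFinset]
      intro l
      rw [mem_filter]
      exact ⟨hω l, hall l⟩
  have hOm : Om.card = (bigSets q).card ^ (q * q) := by
    rw [Fintype.card_piFinset, prod_const, card_univ, Fintype.card_prod, ZMod.card]
  have hSg : (Sg.card : ℝ) ≤ (((q : ℝ) + 1) ^ C) ^ q := by
    have h1 : Sg.card = (smallSets q C).card ^ q := by
      rw [Fintype.card_piFinset, prod_const, card_univ, ZMod.card]
    have h2 : Sg.card ≤ ((q + 1) ^ C) ^ q := by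
      rw [h1]
      exact Nat.pow_le_pow_left (card_smallSets_le C) q
    exact_mod_cast h2
  have hrho : (0 : ℝ) ≤ 1 - 1 / 2 ^ (2 * C + 1) := by rw [← hr]; positivity
  have hWk : ∀ σ ∈ Sg, ((Wk σ).card : ℝ) ≤ ((bigSets q).card : ℝ) ^ (q * q) * r ^ (q * q) := by
    intro σ hσ
    have hσ' : ∀ x, (σ x).card ≤ C := by
      intro x
      rw [Fintype.mem_piFinset] at hσ
      exact (mem_filter.mp (hσ x)).2
    have h1 : ((Wk σ).card : ℝ) = ∏ l : ZMod q × ZMod q,
        (((bigSets q).filter (fun W => (W ∩ trace σ l).Nonempty)).card : ℝ) := by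
      rw [Fintype.card_piFinset]
      push_cast
      rfl
    have h2 : ∏ l : ZMod q × ZMod q,
        (((bigSets q).filter (fun W => (W ∩ trace σ l).Nonempty)).card : ℝ) ≤
        ∏ l : ZMod q × ZMod q, (((bigSets q).card : ℝ) *
          (if (trace σ l).card ≤ 2 * C then (r ^ 2) else 1)) := by
      apply Finset.prod_le_prod
      · intro l _
        positivity
      · intro l _
        split_ifs with h
        · rw [hr]
          exact count_meet hC _ h
        · rw [mul_one]
          exact_mod_cast card_filter_le _ _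
    have h3 : ∏ l : ZMod q × ZMod q, (((bigSets q).card : ℝ) *
          (if (trace σ l).card ≤ 2 * C then (r ^ 2) else 1)) =
        ((bigSets q).card : ℝ) ^ (q * q) * (r ^ 2) ^ ((univ : Finset (ZMod q × ZMod q)).filter
          (fun l => (trace σ l).card ≤ 2 * C)).card := by
      rw [prod_mul_distrib, prod_const, card_univ, Fintype.card_prod, ZMod.card, prod_ite,
        prod_const, prod_const_one, mul_one]
    have h4 : (r ^ 2) ^ ((univ : Finset (ZMod q × ZMod q)).filter
          (fun l => (trace σ l).card ≤ 2 * C)).card ≤ r ^ (q * q) := by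
      rw [← pow_mul]
      exact pow_le_pow_of_le_one hr0 hr1.le (good_lines σ hσ')
    rw [h1]
    refine h2.trans ?_
    rw [h3]
    exact mul_le_mul_of_nonneg_left h4 (by positivity)
  have h1 : (Om.card : ℝ) ≤ (((q : ℝ) + 1) ^ C) ^ q *
      (((bigSets q).card : ℝ) ^ (q * q) * r ^ (q * q)) := by
    have h2 : (Om.card : ℝ) ≤ ∑ σ ∈ Sg, ((Wk σ).card : ℝ) := by
      have h3 : Om.card ≤ ∑ σ ∈ Sg, (Wk σ).card := (card_le_card hcover).trans card_biUnion_le
      exact_mod_cast h3
    have h4 : ∑ σ ∈ Sg, ((Wk σ).card : ℝ) ≤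
        ∑ _σ ∈ Sg, ((bigSets q).card : ℝ) ^ (q * q) * r ^ (q * q) := sum_le_sum hWk
    rw [sum_const, nsmul_eq_mul] at h4
    refine h2.trans (h4.trans ?_)
    exact mul_le_mul_of_nonneg_right hSg (by positivity)
  have hbig : 0 < (bigSets q).card := by
    rw [card_pos]
    refine ⟨univ, ?_⟩
    rw [bigSets, mem_filter, card_univ, ZMod.card]
    exact ⟨mem_univ _, by omega⟩
  have hbigr : (0 : ℝ) < ((bigSets q).card : ℝ) ^ (q * q) := by positivity
  have h5 : (((q : ℝ) + 1) ^ C) ^ q * (((bigSets q).card : ℝ) ^ (q * q) * r ^ (q * q)) =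
      ((bigSets q).card : ℝ) ^ (q * q) * (((q : ℝ) + 1) ^ C * r ^ q) ^ q := by
    rw [mul_pow, ← pow_mul r q q]
    ring
  have h6 : (((q : ℝ) + 1) ^ C * r ^ q) ^ q < 1 :=
    pow_lt_one₀ (by positivity) hsmall (Fact.out : q.Prime).ne_zero
  rw [h5, hOm] at h1
  push_cast at h1
  have h7 : ((bigSets q).card : ℝ) ^ (q * q) * (((q : ℝ) + 1) ^ C * r ^ q) ^ q <
      ((bigSets q).card : ℝ) ^ (q * q) * 1 := mul_lt_mul_of_pos_left h6 hbigr
  linarith

/-- For every `C` there is a large prime satisfying the numerical condition. -/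
lemma exists_prime (C : ℕ) : ∃ (r : ℝ) (q : ℕ), 0 ≤ r ∧ r < 1 ∧
    r ^ 2 = 1 - 1 / 2 ^ (2 * C + 1) ∧ q.Prime ∧ 4 * C ≤ q ∧ ((q : ℝ) + 1) ^ C * r ^ q < 1 := by
  have h1 : (1 : ℝ) / 2 ^ (2 * C + 1) < 1 := by
    rw [div_lt_one (by positivity)]
    exact one_lt_pow₀ (by norm_num) (by omega)
  have h2 : (0 : ℝ) < 1 / 2 ^ (2 * C + 1) := by positivity
  set rho : ℝ := 1 - 1 / 2 ^ (2 * C + 1) with hrho
  have h3 : 0 < rho := by rw [hrho]; linarith
  have h4 : rho < 1 := by rw [hrho]; linarith
  set r := Real.sqrt rho with hr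
  have hr0 : 0 < r := Real.sqrt_pos.mpr h3
  have hr1 : r < 1 := by
    rw [hr, Real.sqrt_lt' one_pos]
    simpa using h4
  have hrsq : r ^ 2 = rho := Real.sq_sqrt h3.le
  have ht := tendsto_pow_const_mul_const_pow_of_abs_lt_one C
    (r := r) (by rw [abs_of_pos hr0]; exact hr1)
  have hev : ∀ᶠ n : ℕ in atTop, (n : ℝ) ^ C * r ^ n < r := ht.eventually_lt_const hr0
  obtain ⟨N, hN⟩ := eventually_atTop.mp hev
  obtain ⟨q, hq1, hq2⟩ := Nat.exists_infinite_primes (N + 4 * C)
  refine ⟨r, q, hr0.le, hr1, hrsq, hq2, by omega, ?_⟩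
  have h5 := hN (q + 1) (by omega)
  push_cast at h5
  rw [pow_succ r q, ← mul_assoc] at h5
  have h6 : ((q : ℝ) + 1) ^ C * r ^ q * r < 1 * r := by rw [one_mul]; exact h5
  exact lt_of_mul_lt_mul_right h6 hr0.le

/-- The vertical line over `x`. -/
def vert (x : ZMod q) : Finset (ZMod q × ZMod q) := univ.image (fun y => (x, y))

/-- The part of the line `l` over `W`. -/
def part (l : ZMod q × ZMod q) (W : Finset (ZMod q)) : Finset (ZMod q × ZMod q) :=
  W.image (fun x => (x, l.1 * x + l.2))

lemma card_vert (x : ZMod q) : (vert x).card = q := by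
  classical
  unfold vert
  rw [card_image_of_injective, card_univ, ZMod.card]
  intro a b h
  exact (Prod.mk.inj h).2

lemma card_part (l : ZMod q × ZMod q) (W : Finset (ZMod q)) : (part l W).card = W.card := by
  classical
  unfold part
  apply card_image_of_injective
  intro a b h
  exact (Prod.mk.inj h).1

/-- The counterexample over the affine plane. -/
theorem main (C : ℕ) : ∃ (q : ℕ) (_ : Fact q.Prime) (F : Finset (Finset (ZMod q × ZMod q))),
    (∀ A ∈ F, q ≤ 4 * A.card) ∧ (∀ A ∈ F, ∀ B ∈ F, A ≠ B → (A ∩ B).card ≤ 1) ∧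
      ¬ ∃ S : Finset (ZMod q × ZMod q), ∀ A ∈ F, 1 ≤ (A ∩ S).card ∧ (A ∩ S).card ≤ C := by
  classical
  obtain ⟨r, q, hr0, hr1, hr, hq, hC, hsmall⟩ := exists_prime C
  have hfact : Fact q.Prime := ⟨hq⟩
  obtain ⟨ω, hω1, hω2⟩ := exists_good C r hr0 hr1 hr hC hsmall
  refine ⟨q, hfact, (univ.image (fun x : ZMod q => vert x)) ∪
    (univ.image (fun l : ZMod q × ZMod q => part l (ω l))), ?_, ?_, ?_⟩
  · intro A hA
    rcases mem_union.mp hA with h | h
    · obtain ⟨x, _, rfl⟩ := mem_image.mp h
      rw [card_vert]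
      omega
    · obtain ⟨l, _, rfl⟩ := mem_image.mp h
      rw [card_part]
      exact hω1 l
  · -- pairwise intersections
    have hvv : ∀ x x' : ZMod q, vert x ≠ vert x' → (vert x ∩ vert x').card ≤ 1 := by
      intro x x' hne
      have : vert x ∩ vert x' = ∅ := by
        rw [← disjoint_iff_inter_eq_empty, Finset.disjoint_left]
        intro p hp hp'
        obtain ⟨y, _, rfl⟩ := mem_image.mp hp
        obtain ⟨y', _, h⟩ := mem_image.mp hp'
        exact hne (by rw [(Prod.mk.inj h).1])
      rw [this]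
      simp
    have hvp : ∀ (x : ZMod q) (l : ZMod q × ZMod q) (W : Finset (ZMod q)),
        (vert x ∩ part l W).card ≤ 1 := by
      intro x l W
      rw [card_le_one]
      intro p hp p' hp'
      rw [mem_inter] at hp hp'
      obtain ⟨y, _, rfl⟩ := mem_image.mp hp.1
      obtain ⟨y', _, rfl⟩ := mem_image.mp hp'.1
      obtain ⟨z, _, h⟩ := mem_image.mp hp.2
      obtain ⟨z', _, h'⟩ := mem_image.mp hp'.2
      obtain ⟨e1, e2⟩ := Prod.mk.inj h
      obtain ⟨e3, e4⟩ := Prod.mk.inj h'
      rw [← e2, ← e4, e1, e3]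
    have hpp : ∀ (l l' : ZMod q × ZMod q) (W W' : Finset (ZMod q)), l ≠ l' →
        (part l W ∩ part l' W').card ≤ 1 := by
      intro l l' W W' hne
      rw [card_le_one]
      intro p hp p' hp'
      rw [mem_inter] at hp hp'
      obtain ⟨x, _, rfl⟩ := mem_image.mp hp.1
      obtain ⟨x', _, rfl⟩ := mem_image.mp hp'.1
      obtain ⟨z, _, h⟩ := mem_image.mp hp.2
      obtain ⟨z', _, h'⟩ := mem_image.mp hp'.2
      obtain ⟨e1, e2⟩ := Prod.mk.inj h
      obtain ⟨e3, e4⟩ := Prod.mk.inj h'
      rw [e1] at e2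
      rw [e3] at e4
      -- `l'.1 * x + l'.2 = l.1 * x + l.2` and the same for `x'`
      have e5 : (l'.1 - l.1) * (x - x') = 0 := by linear_combination e2 - e4
      rcases mul_eq_zero.mp e5 with h6 | h6
      · exfalso
        apply hne
        have h7 : l'.1 = l.1 := sub_eq_zero.mp h6
        have h8 : l'.2 = l.2 := by
          rw [h7] at e2
          exact add_left_cancel e2
        exact Prod.ext h7.symm h8.symm
      · rw [sub_eq_zero.mp h6]
    intro A hA B hB hne
    rcases mem_union.mp hA with h | h <;> rcases mem_union.mp hB with h' | h'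
    · obtain ⟨x, _, rfl⟩ := mem_image.mp h
      obtain ⟨x', _, rfl⟩ := mem_image.mp h'
      exact hvv x x' hne
    · obtain ⟨x, _, rfl⟩ := mem_image.mp h
      obtain ⟨l, _, rfl⟩ := mem_image.mp h'
      exact hvp x l _
    · obtain ⟨l, _, rfl⟩ := mem_image.mp h
      obtain ⟨x, _, rfl⟩ := mem_image.mp h'
      rw [inter_comm]
      exact hvp x l _
    · obtain ⟨l, _, rfl⟩ := mem_image.mp h
      obtain ⟨l', _, rfl⟩ := mem_image.mp h'
      exact hpp l l' _ _ (fun e => hne (by rw [e]))
  · rintro ⟨S, hS⟩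
    let σ : ZMod q → Finset (ZMod q) := fun x => univ.filter (fun y => (x, y) ∈ S)
    have hσ : ∀ x, (σ x).card ≤ C := by
      intro x
      have h1 := (hS (vert x) (mem_union_left _ (mem_image_of_mem _ (mem_univ x)))).2
      refine le_trans ?_ h1
      apply card_le_card_of_injOn (fun y => (x, y))
      · intro y hy
        rw [mem_coe, mem_filter] at hy
        rw [mem_coe, mem_inter]
        exact ⟨mem_image_of_mem _ (mem_univ y), hy.2⟩
      · intro y _ y' _ h
        exact (Prod.mk.inj h).2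
    obtain ⟨l, hl⟩ := hω2 σ hσ
    have h1 := (hS (part l (ω l)) (mem_union_right _ (mem_image_of_mem _ (mem_univ l)))).1
    rw [Nat.one_le_iff_ne_zero, ← Nat.pos_iff_ne_zero, card_pos] at h1
    obtain ⟨p, hp⟩ := h1
    rw [mem_inter] at hp
    obtain ⟨x, hx, rfl⟩ := mem_image.mp hp.1
    have h2 : x ∈ ω l ∩ trace σ l := by
      rw [mem_inter]
      refine ⟨hx, ?_⟩
      rw [trace, mem_filter, mem_filter]
      exact ⟨mem_univ _, mem_univ _, hp.2⟩
    rw [hl] at h2
    simp at h2

end Pool.Agent.V1162.BT
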